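import Mathlib
import Pool.Agent.Helper31.AO.Defs
import Pool.Agent.Helper5.BD.Defs

/-!
# BA: hitting sets for the border of sums of few products of any-order programs: definitions

`BD.Defs` contains `yv`, `xv`, `G`, `H`, `line`, `minor`, `loc`, `PTendsto`, `STendsto`.
-/

namespace Pool.Agent.Helper5.BA

open MvPolynomial Filter Topology BD AOR

/-- A product of `s` polynomials of degree `≤ δ` with `AO ρ` and of a polynomial of degree `≤ p` with
`AO R`. -/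
def IsTerm {n : ℕ} (s p δ R ρ : ℕ) (T : MvPolynomial (Fin n) ℂ) : Prop :=
  ∃ (P : MvPolynomial (Fin n) ℂ) (f : Fin s → MvPolynomial (Fin n) ℂ),
    P.totalDegree ≤ p ∧ AO R P ∧ (∀ j, (f j).totalDegree ≤ δ ∧ AO ρ (f j)) ∧ T = P * ∏ j, f j

/-- Coefficientwise limits of sums of `k` terms. -/
def Border {n : ℕ} (k s p δ R ρ : ℕ) (f : MvPolynomial (Fin n) ℂ) : Prop :=
  ∃ T : ℕ → Fin k → MvPolynomial (Fin n) ℂ, (∀ t i, IsTerm s p δ R ρ (T t i)) ∧
    ∀ m, Tendsto (fun t => coeff m (∑ i, T t i)) atTop (𝓝 (coeff m f))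

/-- Rank `≤ R` across the set `S` of variables. -/
def SR {m : ℕ} (S : Finset (Fin m)) (R : ℕ) (f : MvPolynomial (Fin m) ℂ) : Prop :=
  ∃ A B : Fin R → MvPolynomial (Fin m) ℂ, ∀ x y : Fin m → ℂ,
    eval (S.piecewise x y) f = ∑ k, eval x (A k) * eval y (B k)

theorem ao_iff {n r : ℕ} {f : MvPolynomial (Fin n) ℂ} : AO r f ↔ ∀ S, SR S r f := Iff.rfl

/-- The variables `y i`, `x i` with `i ∈ S`. -/
def blk {n : ℕ} (S : Finset (Fin n)) : Finset (Fin (n + n)) :=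
  S.image (Fin.castAdd n) ∪ S.image (Fin.natAdd n)

/-- Rank `≤ R` across all sets of blocks `{y i, x i}`. -/
def BR {n : ℕ} (R : ℕ) (V : MvPolynomial (Fin (n + n)) ℂ) : Prop :=
  ∀ S : Finset (Fin n), SR (blk S) R V

/-- The coefficients of `z' ^ m`, `m ≤ D`, have block rank `≤ R`. -/
def CR {n : ℕ} (D R : ℕ) (U : PowerSeries (MvPolynomial (Fin (n + n)) ℂ)) : Prop :=
  ∀ m ≤ D, BR R (PowerSeries.coeff m U)

/-- The inverse of `f` at `β` up to order `Q`. -/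
noncomputable def invp {n : ℕ} (β : Fin n → ℂ) (Q : ℕ) (f : MvPolynomial (Fin n) ℂ) :
    MvPolynomial (Fin n) ℂ :=
  C (eval β f)⁻¹ * ∑ q ∈ Finset.range (Q + 1), (1 - C (eval β f)⁻¹ * f) ^ q

/-- `u (β + z' y + w x)`, a polynomial in `w` whose coefficients are power series in `z'`. -/
noncomputable def Gam {n : ℕ} (β : Fin n → ℂ) :
    MvPolynomial (Fin n) ℂ →+* Polynomial (PowerSeries (MvPolynomial (Fin (n + n)) ℂ)) :=
  (Polynomial.mapRingHom (loc β : MvPolynomial (Fin (n + n)) ℂ →+*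
    PowerSeries (MvPolynomial (Fin (n + n)) ℂ))).comp
    (G n : MvPolynomial (Fin n) ℂ →+* Polynomial (MvPolynomial (Fin (n + n)) ℂ))

theorem Gam_coeff {n : ℕ} (β : Fin n → ℂ) (u : MvPolynomial (Fin n) ℂ) (c : ℕ) :
    (Gam β u).coeff c = loc β (H n c u) := by
  rw [Gam, RingHom.comp_apply, Polynomial.coe_mapRingHom, Polynomial.coeff_map, H]
  rfl

/-- All coefficients of `w ^ c z' ^ m` with `c + m ≤ Q` vanish. -/
def Ord {R : Type*} [CommRing R] (Q : ℕ) (P : Polynomial (PowerSeries R)) : Prop :=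
  ∀ c m, c + m ≤ Q → PowerSeries.coeff m (P.coeff c) = 0

/-- `[w ^ b] ∏ j, f j (β + z' y + w x)` divided by `∏ j, f j (β + z' y)`, up to order `Q`. -/
noncomputable def wser {n s : ℕ} (β : Fin n → ℂ) (Q : ℕ) (f : Fin s → MvPolynomial (Fin n) ℂ)
    (b : ℕ) : PowerSeries (MvPolynomial (Fin (n + n)) ℂ) :=
  loc β (H n b (∏ j, f j)) * ∏ j, loc β (H n 0 (invp β Q (f j)))

/-- `[w ^ c]` of the logarithmic derivative of `∏ j, f j (β + z' y + w x)`, up to order `Q`. -/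
noncomputable def lser {n s : ℕ} (β : Fin n → ℂ) (Q : ℕ) (f : Fin s → MvPolynomial (Fin n) ℂ)
    (c : ℕ) : PowerSeries (MvPolynomial (Fin (n + n)) ℂ) :=
  ∑ j, ∑ e ∈ Finset.HasAntidiagonal.antidiagonal c,
    ((e.1 : ℂ) + 1) • (loc β (H n (e.1 + 1) (f j)) * loc β (H n e.2 (invp β Q (f j))))

/-- The entries of the determinant. -/
noncomputable def ent {n s : ℕ} (β : Fin n → ℂ) (Q : ℕ) (P : MvPolynomial (Fin n) ℂ)
    (f : Fin s → MvPolynomial (Fin n) ℂ) (b : ℕ) : PowerSeries (MvPolynomial (Fin (n + n)) ℂ) :=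
  loc β (H n b (P * ∏ j, f j)) * ∏ j, loc β (H n 0 (invp β Q (f j)))

/-! ## The numerical bounds -/

/-- Bound for the coefficients of the logarithmic derivative. -/
def bL (k s ρ D : ℕ) : ℕ :=
  s * (k * ((D + 1) * (ρ * ((D + 1) * (k + 1)) *
    ((D + k + 1) ^ (ρ + 2) * ((D + 1) * (k + 1))))))

/-- Bound for one entry. -/
def bE (k s R ρ D : ℕ) : ℕ :=
  (k + 1) * ((D + 1) * ((R + 1) * ((D + 1) * (k + 1)) * ((D + 1) * bL k s ρ D + 1) ^ k))

/-- Bound for the determinant. -/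
def bD (k s R ρ D : ℕ) : ℕ := k.factorial * ((D + 1) ^ k * bE k s R ρ D ^ k)

end Pool.Agent.Helper5.BA
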