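import Mathlib
import Pool.Agent.Helper5.BA.Defs

/-!
# BA-01: calculus of the rank across a set of variables

All proofs as for `Helper7.PD.RankLe` (`Helper7/PD/Closure.lean`): a reformulation with an arbitrary finite
index type `ι`, `Fintype.card ι ≤ r`, first. Evaluation of sums and products. `SR.pow`: `f ^ q` with
`f = ∑ k < ρ, A k B k`: `(∑ a k * b k) ^ q` is a linear combination of products
`(∏ a k ^ α k) * (∏ b k ^ α k)`, `α : Fin ρ → Fin (q + 1)`, with constant coefficients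
(`Finset.sum_pow_eq_sum_piAntidiag` or induction on `ρ` with `add_pow`; the coefficient of an `α` which does
not have sum `q` is `0`). `AO.monomial`: `S.piecewise x y`, `∏ i, (S.piecewise x y i) ^ m i =
(∏ i ∈ S, x i ^ m i) * ∏ i ∉ S, y i ^ m i`. `AO.of_totalDegree`: `F` is the sum of at most `(n + 1) ^ k`
monomials (every monomial of degree `≤ k` comes from a word `Fin k → Option (Fin n)`).
-/

namespace Pool.Agent.Helper5.BA

open MvPolynomial Filter Topology BD AOR

theorem SR.mono {m r s : ℕ} {S : Finset (Fin m)} {f : MvPolynomial (Fin m) ℂ} (h : SR S r f)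
    (hrs : r ≤ s) : SR S s f := by
  sorry

theorem SR.zero {m r : ℕ} {S : Finset (Fin m)} : SR S r (0 : MvPolynomial (Fin m) ℂ) := by
  sorry

theorem SR.const {m r : ℕ} {S : Finset (Fin m)} (hr : 1 ≤ r) (c : ℂ) :
    SR S r (C c : MvPolynomial (Fin m) ℂ) := by
  sorry

theorem SR.C_mul {m r : ℕ} {S : Finset (Fin m)} (c : ℂ) {f : MvPolynomial (Fin m) ℂ}
    (h : SR S r f) : SR S r (C c * f) := by
  sorry

theorem SR.add {m r s : ℕ} {S : Finset (Fin m)} {f g : MvPolynomial (Fin m) ℂ} (hf : SR S r f)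
    (hg : SR S s g) : SR S (r + s) (f + g) := by
  sorry

theorem SR.sum {m : ℕ} {ι : Type*} {S : Finset (Fin m)} (t : Finset ι) (r : ι → ℕ)
    (f : ι → MvPolynomial (Fin m) ℂ) (h : ∀ i ∈ t, SR S (r i) (f i)) :
    SR S (∑ i ∈ t, r i) (∑ i ∈ t, f i) := by
  sorry

theorem SR.mul {m r s : ℕ} {S : Finset (Fin m)} {f g : MvPolynomial (Fin m) ℂ} (hf : SR S r f)
    (hg : SR S s g) : SR S (r * s) (f * g) := by
  sorry

theorem SR.pow {m r : ℕ} {S : Finset (Fin m)} {f : MvPolynomial (Fin m) ℂ} (hf : SR S r f)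
    (q : ℕ) : SR S ((q + 1) ^ r) (f ^ q) := by
  sorry

theorem AO.monomial {n : ℕ} (e : Fin n →₀ ℕ) (c : ℂ) :
    AO 1 (MvPolynomial.monomial e c : MvPolynomial (Fin n) ℂ) := by
  sorry

theorem AO.of_totalDegree {n k : ℕ} {F : MvPolynomial (Fin n) ℂ} (h : F.totalDegree ≤ k) :
    AO ((n + 1) ^ k) F := by
  sorry

/-- Affine forms and, more generally, sums of univariate polynomials. -/
theorem AO.sum_univariate {n : ℕ} (g : Fin n → Polynomial ℂ) :
    AO 2 (∑ i, Polynomial.aeval (X i : MvPolynomial (Fin n) ℂ) (g i)) := by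
  sorry

theorem AO.affine {n : ℕ} {l : MvPolynomial (Fin n) ℂ} (hl : l.totalDegree ≤ 1) : AO 2 l := by
  sorry

end Pool.Agent.Helper5.BA
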