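import Mathlib
import Pool.Agent.Helper5.BA.SRcalc

/-!
# BA-03: calculus of block ranks of the coefficients of power series

`coeff m (U * V) = ∑ over the antidiagonal (m + 1 ≤ D + 1 terms) of products`
(`PowerSeries.coeff_mul`); `SR.sum`, `SR.mul`, `SR.mono`. As `BD/Rank.lean` (BD-06).
* `CR.det`: `Matrix.det_apply'`; for `r = 0` everything is `1`.
-/

namespace Pool.Agent.Helper5.BA

open MvPolynomial Filter Topology BD AOR

theorem CR.congr {n D R : ℕ} {U V : PowerSeries (MvPolynomial (Fin (n + n)) ℂ)} (h : CR D R U)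
    (hV : ∀ m ≤ D, PowerSeries.coeff m V = PowerSeries.coeff m U) : CR D R V := by
  sorry

theorem CR.mono {n D R R' : ℕ} {U : PowerSeries (MvPolynomial (Fin (n + n)) ℂ)} (h : CR D R U)
    (hR : R ≤ R') : CR D R' U := by
  sorry

theorem CR.one {n D R : ℕ} (hR : 1 ≤ R) :
    CR D R (1 : PowerSeries (MvPolynomial (Fin (n + n)) ℂ)) := by
  sorry

theorem CR.smul {n D R : ℕ} (c : ℂ) {U : PowerSeries (MvPolynomial (Fin (n + n)) ℂ)}
    (h : CR D R U) : CR D R (c • U) := by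
  sorry

theorem CR.neg_one_pow_mul {n D R : ℕ} (e : ℕ) {U : PowerSeries (MvPolynomial (Fin (n + n)) ℂ)}
    (h : CR D R U) : CR D R ((-1) ^ e * U) := by
  sorry

theorem CR.add {n D R R' : ℕ} {U V : PowerSeries (MvPolynomial (Fin (n + n)) ℂ)} (hU : CR D R U)
    (hV : CR D R' V) : CR D (R + R') (U + V) := by
  sorry

theorem CR.mul {n D R R' : ℕ} {U V : PowerSeries (MvPolynomial (Fin (n + n)) ℂ)} (hU : CR D R U)
    (hV : CR D R' V) : CR D ((D + 1) * (R * R')) (U * V) := by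
  sorry

theorem CR.sum {n D : ℕ} {ι : Type*} (s : Finset ι) (R : ι → ℕ)
    (U : ι → PowerSeries (MvPolynomial (Fin (n + n)) ℂ)) (h : ∀ i ∈ s, CR D (R i) (U i)) :
    CR D (∑ i ∈ s, R i) (∑ i ∈ s, U i) := by
  sorry

theorem CR.prod {n D : ℕ} {ι : Type*} (s : Finset ι) (R : ι → ℕ)
    (U : ι → PowerSeries (MvPolynomial (Fin (n + n)) ℂ)) (h : ∀ i ∈ s, CR D (R i) (U i)) :
    CR D ((D + 1) ^ s.card * ∏ i ∈ s, R i) (∏ i ∈ s, U i) := by
  sorry

theorem CR.det {n D r Q : ℕ}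
    (E : Matrix (Fin r) (Fin r) (PowerSeries (MvPolynomial (Fin (n + n)) ℂ)))
    (h : ∀ b i, CR D Q (E b i)) :
    CR D (r.factorial * ((D + 1) ^ r * Q ^ r)) E.det := by
  sorry

end Pool.Agent.Helper5.BA
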