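import Mathlib
import Pool.Agent.Helper5.BA.SRcalc

/-!
# BA-05: the inverse of a polynomial up to order `Q`

With `a = eval β f ≠ 0` and `g = 1 - C a⁻¹ * f`: `f * invp = (1 - g) * ∑ q ≤ Q, g ^ q = 1 - g ^ (Q + 1)`
(`mul_neg_geom_sum` / `geom_sum_mul`).
* `ord_pow`: `Ord 0 P → Ord q (P ^ (q + 1))`: `Polynomial.coeff_mul`, `PowerSeries.coeff_mul`: `Ord a`, `Ord b`
  imply `Ord (a + b + 1)` of the product. `Ord 0 (Gam β g)`: the coefficient of `w ^ 0 z' ^ 0` is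
  `eval β g = 0` (as a constant of `MvPolynomial (Fin (n + n)) ℂ`).
* `ord_mul_left`: the set of `P` with `Ord Q P` is an ideal.
* `AO_invp`: `SR.pow` with rank `ρ + 1` of `g`, `∑ q ≤ Q, (q + 1) ^ (ρ + 1) ≤ (Q + 1) ^ (ρ + 2)`.
* `totalDegree_invp`: `totalDegree` of `g ^ q` is `≤ q δ`.
-/

namespace Pool.Agent.Helper5.BA

open MvPolynomial Filter Topology BD AOR

theorem mul_invp {n : ℕ} {β : Fin n → ℂ} (Q : ℕ) {f : MvPolynomial (Fin n) ℂ}
    (hβ : eval β f ≠ 0) : f * invp β Q f = 1 - (1 - C (eval β f)⁻¹ * f) ^ (Q + 1) := by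
  sorry

theorem ord_mul_left {R : Type*} [CommRing R] {Q : ℕ} {P : Polynomial (PowerSeries R)}
    (h : Ord Q P) (P' : Polynomial (PowerSeries R)) : Ord Q (P' * P) := by
  sorry

theorem ord_sum {R : Type*} [CommRing R] {Q : ℕ} {ι : Type*} (s : Finset ι)
    (P : ι → Polynomial (PowerSeries R)) (h : ∀ i ∈ s, Ord Q (P i)) : Ord Q (∑ i ∈ s, P i) := by
  sorry

theorem ord_pow {R : Type*} [CommRing R] {P : Polynomial (PowerSeries R)} (h : Ord 0 P) (q : ℕ) :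
    Ord q (P ^ (q + 1)) := by
  sorry

theorem ord_invp {n : ℕ} {β : Fin n → ℂ} (Q : ℕ) {f : MvPolynomial (Fin n) ℂ}
    (hβ : eval β f ≠ 0) : Ord Q (1 - Gam β f * Gam β (invp β Q f)) := by
  sorry

theorem totalDegree_invp {n δ : ℕ} (β : Fin n → ℂ) (Q : ℕ) {f : MvPolynomial (Fin n) ℂ}
    (hf : f.totalDegree ≤ δ) : (invp β Q f).totalDegree ≤ Q * δ := by
  sorry

theorem AO_invp {n ρ : ℕ} (β : Fin n → ℂ) (Q : ℕ) {f : MvPolynomial (Fin n) ℂ} (hf : AO ρ f) :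
    AO ((Q + 1) ^ (ρ + 2)) (invp β Q f) := by
  sorry

end Pool.Agent.Helper5.BA
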