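import Mathlib
import Pool.Agent.Helper5.BA.Defs
import Pool.Agent.Helper5.BD.Limit

/-!
# BA-09: limits of sums, products, powers, and of `invp`

`PTendsto F u v` is coefficientwise; the coefficients of a product are finite sums (`MvPolynomial.coeff_mul`).
* `PTendsto.H`: `coeff e ∘ H n b` is a linear functional: `BD.tendsto_linear` (bounded degrees).
* `PTendsto.invp`: `eval β (u t) → eval β v ≠ 0` (`BD.tendsto_linear`), `Tendsto.inv₀`, then sums, products, powers.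
-/

namespace Pool.Agent.Helper5.BA

open MvPolynomial Filter Topology BD AOR

theorem PTendsto.const {n : ℕ} (F : Ultrafilter ℕ) (u : MvPolynomial (Fin n) ℂ) :
    PTendsto F (fun _ => u) u := by
  sorry

theorem PTendsto.add {n : ℕ} {F : Ultrafilter ℕ} {u u' : ℕ → MvPolynomial (Fin n) ℂ}
    {v v' : MvPolynomial (Fin n) ℂ} (h : PTendsto F u v) (h' : PTendsto F u' v') :
    PTendsto F (fun t => u t + u' t) (v + v') := by
  sorry

theorem PTendsto.mul {n : ℕ} {F : Ultrafilter ℕ} {u u' : ℕ → MvPolynomial (Fin n) ℂ}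
    {v v' : MvPolynomial (Fin n) ℂ} (h : PTendsto F u v) (h' : PTendsto F u' v') :
    PTendsto F (fun t => u t * u' t) (v * v') := by
  sorry

theorem PTendsto.pow {n : ℕ} {F : Ultrafilter ℕ} {u : ℕ → MvPolynomial (Fin n) ℂ}
    {v : MvPolynomial (Fin n) ℂ} (h : PTendsto F u v) (q : ℕ) :
    PTendsto F (fun t => u t ^ q) (v ^ q) := by
  sorry

theorem PTendsto.C {n : ℕ} {F : Ultrafilter ℕ} {c : ℕ → ℂ} {d : ℂ}
    (h : Tendsto c F (𝓝 d)) : PTendsto (n := n) F (fun t => MvPolynomial.C (c t)) (MvPolynomial.C d) := by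
  sorry

theorem PTendsto.eval {n D : ℕ} {F : Ultrafilter ℕ} {u : ℕ → MvPolynomial (Fin n) ℂ}
    {v : MvPolynomial (Fin n) ℂ} (hD : ∀ᶠ t in (F : Filter ℕ), (u t).totalDegree ≤ D)
    (hv : v.totalDegree ≤ D) (h : PTendsto F u v) (x : Fin n → ℂ) :
    Tendsto (fun t => MvPolynomial.eval x (u t)) F (𝓝 (MvPolynomial.eval x v)) := by
  sorry

theorem PTendsto.H {n D : ℕ} {F : Ultrafilter ℕ} {u : ℕ → MvPolynomial (Fin n) ℂ}
    {v : MvPolynomial (Fin n) ℂ} (hD : ∀ᶠ t in (F : Filter ℕ), (u t).totalDegree ≤ D)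
    (hv : v.totalDegree ≤ D) (h : PTendsto F u v) (b : ℕ) :
    PTendsto F (fun t => BD.H n b (u t)) (BD.H n b v) := by
  sorry

theorem PTendsto.invp {n D : ℕ} {F : Ultrafilter ℕ} {u : ℕ → MvPolynomial (Fin n) ℂ}
    {v : MvPolynomial (Fin n) ℂ} (hD : ∀ᶠ t in (F : Filter ℕ), (u t).totalDegree ≤ D)
    (hv : v.totalDegree ≤ D) (h : PTendsto F u v) (β : Fin n → ℂ)
    (hβ : MvPolynomial.eval β v ≠ 0) (Q : ℕ) :
    PTendsto F (fun t => BA.invp β Q (u t)) (BA.invp β Q v) := by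
  sorry

end Pool.Agent.Helper5.BA
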