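import Mathlib
import Pool.Agent.Helper5.BA.Defs

/-!
# BA-11: a curve with integer values through a list of integer points

`newt L z = ∑ j < length, (z choose j) * Δ^j L (0)`. `newt_apply`: Newton's formula
(`shift_eq_sum_fwdDiff_iter` and `fwdDiff_iter_eq_sum_shift` of Mathlib with step `1`, or a direct proof: for
`z < length` the double sum `∑ j ≤ z, ∑ i ≤ j, (-1)^(j-i) (z choose j) (j choose i) L_i = L_z`).
`exists_newt`: for `g ≠ 0` of degree `≤ δ` with `g (L_i) ≠ 0` for some `i`: the polynomial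
`G_l (z) = ∑ j, (descPochhammer/j !)(z) * a_j l ∈ ℂ[z]` (degree `< length`; `(z choose j)` is the value of the
polynomial `C (j !)⁻¹ * descPochhammer ℂ j`, `descPochhammer_eval_eq_descFactorial`,
`Nat.choose_eq_descFactorial_div_factorial`) and `g (G (z)) ∈ ℂ[z]` has degree `≤ δ * length` and is nonzero (value
at `z = i`). The product over the family has degree `≤ N * (δ * length)`: some natural `z ≤ N * δ * length` is no root.
-/

namespace Pool.Agent.Helper5.BA

open MvPolynomial Filter Topology BD AOR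

/-- The curve through the points of the list `L`. -/
def newt {n : ℕ} (L : List (Fin n → ℤ)) (z : ℕ) (l : Fin n) : ℤ :=
  ∑ j ∈ Finset.range L.length, (z.choose j : ℤ) *
    ∑ i ∈ Finset.range (j + 1), (-1) ^ (j - i) * (j.choose i : ℤ) * (L.getD i 0) l

theorem newt_apply {n : ℕ} (L : List (Fin n → ℤ)) (z : ℕ) (hz : z < L.length) :
    newt L z = L.getD z 0 := by
  sorry

theorem newt_le {n : ℕ} (L : List (Fin n → ℤ)) (z M : ℕ) (hM : ∀ a ∈ L, ∀ l, |a l| ≤ M)
    (l : Fin n) : |newt L z l| ≤ (z + 1) ^ L.length * 2 ^ L.length * (L.length * M) := by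
  sorry

theorem exists_newt {n N δ : ℕ} {ι : Type*} [Fintype ι] (hN : Fintype.card ι ≤ N)
    (L : List (Fin n → ℤ)) (g : ι → MvPolynomial (Fin n) ℂ) (hδ : ∀ j, (g j).totalDegree ≤ δ)
    (hL : ∀ j, ∃ a ∈ L, eval (fun i => ((a i : ℤ) : ℂ)) (g j) ≠ 0) :
    ∃ z : ℕ, z ≤ N * (δ * L.length) ∧ ∀ j, eval (fun i => ((newt L z i : ℤ) : ℂ)) (g j) ≠ 0 := by
  sorry

end Pool.Agent.Helper5.BA
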