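import Mathlib
import Pool.Agent.Helper5.BA.SRcalc

/-!
# BA-10: normalisation of a term

Divide each `f j` by its coefficient of largest absolute value, multiply `P` by the product of these
coefficients (`SR.C_mul`; `T ≠ 0` makes all `f j ≠ 0`).
-/

namespace Pool.Agent.Helper5.BA

open MvPolynomial Filter Topology BD AOR

theorem normTerm {n s p δ R ρ : ℕ} {T : MvPolynomial (Fin n) ℂ} (h : IsTerm s p δ R ρ T)
    (h0 : T ≠ 0) :
    ∃ (P : MvPolynomial (Fin n) ℂ) (f : Fin s → MvPolynomial (Fin n) ℂ),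
      P.totalDegree ≤ p ∧ AO R P ∧ (∀ j, (f j).totalDegree ≤ δ) ∧ (∀ j, AO ρ (f j)) ∧
      (∀ j m, ‖coeff m (f j)‖ ≤ 1) ∧ (∀ j, ∃ m, ‖coeff m (f j)‖ = 1) ∧ T = P * ∏ j, f j := by
  sorry

theorem IsTerm.totalDegree_le {n s p δ R ρ : ℕ} {T : MvPolynomial (Fin n) ℂ}
    (h : IsTerm s p δ R ρ T) : T.totalDegree ≤ p + s * δ := by
  sorry

end Pool.Agent.Helper5.BA
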