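import Mathlib
import Pool.Agent.Helper5.BA.Defs

/-!
# BA-02: the rank across a set of variables is a closed condition

As in `BD/Closed.lean` (BD-04; if it is already proved, copy its proof and replace `a + b` by
`S.piecewise a b`): take `q` maximal such that there are points `a b : Fin q → (Fin m → ℂ)` with
`det (eval (S.piecewise (a i) (b j)) g) ≠ 0`; `q ≤ R` because the same determinants for `f t` vanish if
`q > R`, and they converge. All bordered determinants vanish, so with `N = (eval (S.piecewise (a i) (b j)) g)`:
`eval (S.piecewise x y) g = ∑ i j, eval (S.piecewise x (b j)) g * (N⁻¹) j i * eval (S.piecewise (a i) y) g`.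
The polynomials: `aeval (S.piecewise X (fun k => C (b j k))) g`, `aeval (S.piecewise (fun k => C (a i k)) X) g`.
-/

namespace Pool.Agent.Helper5.BA

open MvPolynomial Filter Topology BD AOR

theorem SR.of_tendsto {m R : ℕ} {S : Finset (Fin m)} (F : Ultrafilter ℕ)
    (f : ℕ → MvPolynomial (Fin m) ℂ) (g : MvPolynomial (Fin m) ℂ)
    (h : ∀ᶠ t in (F : Filter ℕ), SR S R (f t))
    (hlim : ∀ x, Tendsto (fun t => eval x (f t)) F (𝓝 (eval x g))) : SR S R g := by
  sorry

end Pool.Agent.Helper5.BA
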